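import Pool.Agent.BEF.Stmts

/-! Squad BEF (MP_be01ff_an), row GLI: linear maps, inclusions, decomposition. -/

namespace Pool.Agent.BEF.H24

open Set Filter Topology MeasureTheory
open scoped InnerProductSpace
open Pool.Agent.BE01

noncomputable section

variable {κ : Type} [Fintype κ] {M M' : Type} [NormedAddCommGroup M] [NormedSpace ℝ M]
  [NormedAddCommGroup M'] [NormedSpace ℝ M']

/-- composition with a linear map -/
def post (T : M →L[ℝ] M') : (ℝ → (κ → ℝ) → M) →ₗ[ℝ] (ℝ → (κ → ℝ) → M') where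
  toFun P := fun ψ z => T (P ψ z)
  map_add' P Q := by
    funext ψ z
    show T (P ψ z + Q ψ z) = T (P ψ z) + T (Q ψ z)
    exact map_add _ _ _
  map_smul' c P := by
    funext ψ z
    show T (c • P ψ z) = c • T (P ψ z)
    exact map_smul _ _ _

theorem hg_le (T : M →L[ℝ] M') (d : ℕ) : HG κ M d ≤ (HG κ M' d).comap (post T) := by
  refine Submodule.span_le.2 ?_
  rintro P ⟨f, j, i, m, hf, hji, hP⟩
  show post T P ∈ HG κ M' d
  refine Submodule.subset_span ⟨f, j, i, T m, hf, hji, ?_⟩
  rcases hP with rfl | rfl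
  · left
    funext ψ z
    show T ((MvPolynomial.eval z f * Real.cos (j * ψ)) • m) = _
    rw [map_smul]
  · right
    funext ψ z
    show T ((MvPolynomial.eval z f * Real.sin (j * ψ)) • m) = _
    rw [map_smul]

theorem hg_le_ge (d k : ℕ) : HG κ M (d + 2 * k) ≤ GE κ M d :=
  le_iSup (fun k : ℕ => HG κ M (d + 2 * k)) k

/-- row GLI -/
theorem gli : GliStmt := by
  intro κ _ M M' _ _ _ _ T d P
  refine ⟨fun h => hg_le T d h, ?_, fun h => hg_le_ge d 0 h, ?_, ?_⟩
  · intro h
    have h1 : GE κ M d ≤ (GE κ M' d).comap (post T) := by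
      refine iSup_le fun k => ?_
      refine le_trans (hg_le T (d + 2 * k)) (Submodule.comap_mono (hg_le_ge d k))
    exact h1 h
  · intro k h
    have h1 : GE κ M (d + 2 * k) ≤ GE κ M d := by
      refine iSup_le fun k' => ?_
      rw [show d + 2 * k + 2 * k' = d + 2 * (k + k') by ring]
      exact hg_le_ge d (k + k')
    exact h1 h
  · intro h
    have h1 : GE κ M d ≤ HG κ M d ⊔ GE κ M (d + 2) := by
      refine iSup_le fun k => ?_
      rcases k with _ | k
      · exact le_sup_left
      · rw [show d + 2 * (k + 1) = d + 2 + 2 * k by ring]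
        exact le_trans (hg_le_ge (d + 2) k) le_sup_right
    obtain ⟨P1, h2, P2, h3, h4⟩ := Submodule.mem_sup.1 (h1 h)
    exact ⟨P1, h2, P2, h3, h4.symm⟩

end

end Pool.Agent.BEF.H24
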